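import Mathlib
import Pool.Agent.Lib.helper29.Krein3

set_option autoImplicit false

namespace Pool.Agent.Results.MP_b1ee0a_an.Jordan

open MeasureTheory Pool.Agent.Lib.H29.Krein

/-- Every measurable Hermitian element of `R_A` is a difference of measurable positive ones, even
with minimal norm. -/
theorem result : ∀ A : ENNReal, 0 < A → ∀ f : ℝ → ℂ, InR (Itv A) f → Herm (Itv A) f →
    AEMeasurable f (volume.restrict (Itv A)) →
    ∃ fp fn : ℝ → ℂ, (∀ x ∈ Itv A, f x = fp x - fn x) ∧ InP (Itv A) fp ∧ InP (Itv A) fn ∧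
      AEMeasurable fp (volume.restrict (Itv A)) ∧ AEMeasurable fn (volume.restrict (Itv A)) ∧
      fp 0 + fn 0 = nrm (Itv A) f :=
  fun A _ _ h hH hm => jordan (itv_open A) (itv_neg A) h hH hm

end Pool.Agent.Results.MP_b1ee0a_an.Jordan
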